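import Pool.Agent.Y752.QF.Stm3
import Pool.Agent.Y832.QF.Rep

set_option autoImplicit false

/-! Project QF (helper752): replacement of the factors one at a time, different factors
(after `Pool.Agent.Y832.QF.Rep` of helper832); adapted by helper434. -/

namespace Pool.Agent.Y434.QF

open MeasureTheory Set
open scoped ENNReal
open Pool.Agent.TH612.GS (mP)
open Pool.Agent.TH521.GS (mor lint_prod lint1 pt bb bb_succ bb_nonneg bb_le)
open Pool.Agent.Y752.QF
open Pool.Agent.Y832.QF (ton_sum)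

noncomputable section

theorem rep_fin3 {T K V : ℝ} (hT : 0 ≤ T) (hK : 0 ≤ K) (hV : 0 ≤ V) (F : Finset DC) :
    ∀ (n : ℕ) (f g : Fin n → DC → ℝ → ℂ), (∀ j p, Continuous (f j p)) →
    (∀ j p, Continuous (g j p)) →
    (∀ j, ∀ w : DC → ℂ, ∫ u in (0:ℝ)..T, ‖∑ p ∈ F, w p * (f j p u - g j p u)‖ ^ 2 ≤
      K * ∑ p ∈ F, ‖w p‖ ^ 2) →
    (∀ j, ∀ p ∈ F, ∫ u in (0:ℝ)..T, ‖f j p u‖ ^ 2 ≤ V) →
    (∀ j, ∀ p ∈ F, ∫ u in (0:ℝ)..T, ‖g j p u‖ ^ 2 ≤ V) → ∀ (c : DC → ℂ),
    ∫⁻ γ, ENNReal.ofReal (‖∑ p ∈ F, c p * (∏ j, f j p (γ j) - ∏ j, g j p (γ j))‖ ^ 2)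
      ∂(mP (Fin n) T) ≤ ENNReal.ofReal (bb K V n * ∑ p ∈ F, ‖c p‖ ^ 2) := by
  intro n
  induction n with
  | zero =>
    intro f g _ _ _ _ _ c
    simp
  | succ n ih =>
    intro f g hf hg hop hVf hVg c
    have hcc : Continuous fun p : ℝ × (Fin n → ℝ) => (Fin.cons p.1 p.2 : Fin (n + 1) → ℝ) :=
      Continuous.finCons (A := fun _ => ℝ) continuous_fst continuous_snd
    -- the two parts
    obtain ⟨D1, hD1⟩ : ∃ D1 : ℝ × (Fin n → ℝ) → ℂ, D1 = fun q => ∑ p ∈ F,
      (c p * ∏ i : Fin n, f i.succ p (q.2 i)) * (f 0 p q.1 - g 0 p q.1) := ⟨_, rfl⟩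
    obtain ⟨D2, hD2⟩ : ∃ D2 : ℝ × (Fin n → ℝ) → ℂ, D2 = fun q => ∑ p ∈ F,
      (c p * g 0 p q.1) * (∏ i : Fin n, f i.succ p (q.2 i) - ∏ i : Fin n, g i.succ p (q.2 i)) := ⟨_, rfl⟩
    have hc1 : Continuous D1 := by
      rw [hD1]
      fun_prop
    have hc2 : Continuous D2 := by
      rw [hD2]
      fun_prop
    have hcD : Continuous fun γ : Fin (n + 1) → ℝ => ‖∑ p ∈ F, c p *
        (∏ i, f i p (γ i) - ∏ i, g i p (γ i))‖ ^ 2 := by
      fun_prop
    have hsplit : ∀ q : ℝ × (Fin n → ℝ), (∑ p ∈ F, c p *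
        (∏ i, f i p ((Fin.cons q.1 q.2 : Fin (n + 1) → ℝ) i) -
          ∏ i, g i p ((Fin.cons q.1 q.2 : Fin (n + 1) → ℝ) i))) = D1 q + D2 q := by
      intro q
      rw [hD1, hD2]
      dsimp only
      rw [← Finset.sum_add_distrib]
      refine Finset.sum_congr rfl fun p _ => ?_
      rw [Fin.prod_univ_succ, Fin.prod_univ_succ]
      simp only [Fin.cons_zero, Fin.cons_succ]
      ring
    have hle : ∀ q : ℝ × (Fin n → ℝ), ENNReal.ofReal (‖∑ p ∈ F, c p *
        (∏ i, f i p ((Fin.cons q.1 q.2 : Fin (n + 1) → ℝ) i) -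
          ∏ i, g i p ((Fin.cons q.1 q.2 : Fin (n + 1) → ℝ) i))‖ ^ 2) ≤
        ENNReal.ofReal 2 * ENNReal.ofReal (‖D1 q‖ ^ 2) +
          ENNReal.ofReal 2 * ENNReal.ofReal (‖D2 q‖ ^ 2) := by
      intro q
      rw [hsplit, ← ENNReal.ofReal_mul (by norm_num), ← ENNReal.ofReal_mul (by norm_num),
        ← ENNReal.ofReal_add (by positivity) (by positivity)]
      apply ENNReal.ofReal_le_ofReal
      have h1 := norm_add_le (D1 q) (D2 q)
      have h2 : ‖D1 q + D2 q‖ ^ 2 ≤ (‖D1 q‖ + ‖D2 q‖) ^ 2 :=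
        pow_le_pow_left₀ (norm_nonneg _) h1 2
      nlinarith [sq_nonneg (‖D1 q‖ - ‖D2 q‖)]
    have hm1 : Measurable fun p : ℝ × (Fin n → ℝ) => ENNReal.ofReal (‖D1 p‖ ^ 2) :=
      mor (hc1.norm.pow 2)
    have hm2 : Measurable fun p : ℝ × (Fin n → ℝ) => ENNReal.ofReal (‖D2 p‖ ^ 2) :=
      mor (hc2.norm.pow 2)
    -- part 1
    have hp1 : ∫⁻ p, ENNReal.ofReal (‖D1 p‖ ^ 2)
        ∂((volume.restrict (Icc 0 T)).prod (mP (Fin n) T)) ≤
        ENNReal.ofReal (K * V ^ n * ∑ p ∈ F, ‖c p‖ ^ 2) := by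
      rw [lintegral_prod_symm _ hm1.aemeasurable]
      have e1 : ∀ γ : Fin n → ℝ, ∫⁻ y, ENNReal.ofReal (‖D1 (y, γ)‖ ^ 2)
          ∂(volume.restrict (Icc 0 T)) ≤ ENNReal.ofReal K *
            ENNReal.ofReal (∑ p ∈ F, ‖c p‖ ^ 2 * ∏ i : Fin n, ‖f i.succ p (γ i)‖ ^ 2) := by
        intro γ
        have hcy : Continuous fun y : ℝ => ‖D1 (y, γ)‖ ^ 2 :=
          (hc1.comp (by fun_prop : Continuous fun y : ℝ => (y, γ))).norm.pow 2
        rw [lint1 hT hcy fun y => sq_nonneg _, ← ENNReal.ofReal_mul hK]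
        apply ENNReal.ofReal_le_ofReal
        have h1 := hop 0 (fun p => c p * ∏ i : Fin n, f i.succ p (γ i))
        rw [hD1]
        refine h1.trans (le_of_eq ?_)
        congr 1
        refine Finset.sum_congr rfl fun p _ => ?_
        rw [norm_mul, norm_prod, mul_pow, Finset.prod_pow]
      refine (lintegral_mono e1).trans ?_
      rw [lintegral_const_mul']
      · rw [mul_assoc, ENNReal.ofReal_mul hK]
        refine mul_le_mul' le_rfl ?_
        refine ton_sum (mP (Fin n) T) F (w := fun p => ‖c p‖ ^ 2) (fun p => sq_nonneg _)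
          (G := fun p γ => ∏ i : Fin n, ‖f i.succ p (γ i)‖ ^ 2) (fun p => by
            have := fun i : Fin n => hf i.succ p
            fun_prop)
          (fun p γ => Finset.prod_nonneg fun i _ => sq_nonneg _) (by positivity) fun p hp => ?_
        have h1 := pt hT hV 0 n (fun i => f i.succ p) (fun i => hf i.succ p) (fun i => by
          simpa using hVf i.succ p hp)
        simpa using h1
      · exact ENNReal.ofReal_ne_top
    -- part 2
    have hp2 : ∫⁻ p, ENNReal.ofReal (‖D2 p‖ ^ 2)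
        ∂((volume.restrict (Icc 0 T)).prod (mP (Fin n) T)) ≤
        ENNReal.ofReal (bb K V n * (V * ∑ p ∈ F, ‖c p‖ ^ 2)) := by
      rw [lintegral_prod _ hm2.aemeasurable]
      have hb := bb_nonneg hK hV n
      have e1 : ∀ y : ℝ, ∫⁻ γ, ENNReal.ofReal (‖D2 (y, γ)‖ ^ 2) ∂(mP (Fin n) T) ≤
          ENNReal.ofReal (bb K V n) *
            ENNReal.ofReal (∑ p ∈ F, ‖c p‖ ^ 2 * ‖g 0 p y‖ ^ 2) := by
        intro y
        have h1 := ih (fun i => f i.succ) (fun i => g i.succ) (fun i p => hf i.succ p)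
          (fun i p => hg i.succ p) (fun i => hop i.succ) (fun i => hVf i.succ)
          (fun i => hVg i.succ) (fun p => c p * g 0 p y)
        rw [hD2]
        refine h1.trans (le_of_eq ?_)
        rw [ENNReal.ofReal_mul hb]
        congr 2
        refine Finset.sum_congr rfl fun p _ => ?_
        rw [norm_mul, mul_pow]
      refine (lintegral_mono e1).trans ?_
      rw [lintegral_const_mul']
      · rw [ENNReal.ofReal_mul hb]
        refine mul_le_mul' le_rfl ?_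
        refine ton_sum (volume.restrict (Icc 0 T)) F (w := fun p => ‖c p‖ ^ 2)
          (fun p => sq_nonneg _) (G := fun p y => ‖g 0 p y‖ ^ 2) (fun p => by
            have := hg 0 p
            fun_prop) (fun p y => sq_nonneg _) hV fun p hp => ?_
        rw [lint1 hT (by have := hg 0 p; fun_prop) fun y => sq_nonneg _]
        exact ENNReal.ofReal_le_ofReal (hVg 0 p hp)
      · exact ENNReal.ofReal_ne_top
    rw [lint_prod T _ (mor hcD)]
    refine (lintegral_mono hle).trans ?_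
    rw [lintegral_add_left (hm1.const_mul _), lintegral_const_mul _ hm1,
      lintegral_const_mul _ hm2]
    refine (add_le_add (mul_le_mul' le_rfl hp1) (mul_le_mul' le_rfl hp2)).trans ?_
    have hI : 0 ≤ ∑ p ∈ F, ‖c p‖ ^ 2 := Finset.sum_nonneg fun p _ => sq_nonneg _
    have hb := bb_nonneg hK hV n
    rw [← ENNReal.ofReal_mul (by norm_num), ← ENNReal.ofReal_mul (by norm_num),
      ← ENNReal.ofReal_add (by positivity) (by positivity), bb_succ]
    apply ENNReal.ofReal_le_ofReal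
    apply le_of_eq
    ring

/-- REP3 -/
theorem REP3 : S_REP3 := by
  intro T K V hT hK hV k F f g hf hg hop hVf hVg c
  refine (rep_fin3 hT hK hV F k f g hf hg hop hVf hVg c).trans (ENNReal.ofReal_le_ofReal ?_)
  exact mul_le_mul_of_nonneg_right (bb_le hK hV k) (Finset.sum_nonneg fun p _ => sq_nonneg _)

end

end Pool.Agent.Y434.QF
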